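import Pool.Agent.W567.IV.Stm

/-! IV-ALG: square roots of power series, transfer of algebraic independence, isotropic vectors. -/

set_option autoImplicit false

namespace Pool.Agent.W12.IV

open Pool.Agent.W567.IV

/-- coefficients of the square root -/
noncomputable def gc {L : Type} [Field L] (f : PowerSeries L) (c : L) : ℕ → L
  | 0 => c
  | (n + 1) => (PowerSeries.coeff (n + 1) f - ∑ i : Fin n, gc f c (i + 1) * gc f c (n - i)) / (2 * c)
decreasing_by
  all_goals omega

theorem sqrt_ : S_sqrt := by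
  intro L _ _ f c hc hf
  refine ⟨PowerSeries.mk (gc f c), ?_, ?_⟩
  · ext n
    rw [pow_two, PowerSeries.coeff_mul]
    simp only [PowerSeries.coeff_mk]
    rw [Finset.Nat.sum_antidiagonal_eq_sum_range_succ (f := fun i j => gc f c i * gc f c j)]
    rcases n with _ | n
    · simp only [Nat.succ_eq_add_one, zero_add, Finset.range_one, Finset.sum_singleton]
      rw [gc, ← pow_two, ← hf]
      simp
    · rw [Nat.succ_eq_add_one, Finset.sum_range_succ, Finset.sum_range_succ']
      have h2 : (2 * c) ≠ 0 := mul_ne_zero two_ne_zero hc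
      have h3 : gc f c (n + 1) * (2 * c) =
          PowerSeries.coeff (n + 1) f - ∑ i : Fin n, gc f c (i + 1) * gc f c (n - i) := by
        rw [gc, div_mul_cancel₀ _ h2]
      have h4 : ∑ k ∈ Finset.range n, gc f c (k + 1) * gc f c (n + 1 - (k + 1)) =
          ∑ i : Fin n, gc f c (i + 1) * gc f c (n - i) := by
        rw [Finset.sum_range]
        apply Finset.sum_congr rfl
        intro i _
        congr 2
        omega
      rw [h4]
      have h5 : gc f c 0 = c := by rw [gc]
      simp only [Nat.sub_zero, Nat.sub_self]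
      rw [h5]
      linear_combination h3
  · rw [← PowerSeries.coeff_zero_eq_constantCoeff_apply, PowerSeries.coeff_mk, gc]

open scoped IntermediateField.algebraAdjoinAdjoin in
theorem alg_aux {F : Type} [Field F] [Algebra ℂ F] (S : Set F) (y : F)
    (h : IsAlgebraic (IntermediateField.adjoin ℂ S) y) : IsAlgebraic (Algebra.adjoin ℂ S) y := by
  rwa [IsFractionRing.isAlgebraic_iff (Algebra.adjoin ℂ S) (IntermediateField.adjoin ℂ S) F]

theorem tr : S_tr := by
  intro ι _ F _ _ x y hy h
  classical
  have hinj := FaithfulSMul.algebraMap_injective ℂ F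
  set M := AlgebraicIndependent.matroid ℂ F with hM
  have hyi : Function.Injective y := hy.injective
  have ht : M.Indep (Set.range y) := by
    rw [hM, AlgebraicIndependent.matroid_indep_iff]
    exact hy.to_subtype_range
  have hsub : Set.range y ⊆ M.closure (Set.range x) := by
    rw [hM, AlgebraicIndependent.matroid_closure_eq]
    rintro _ ⟨i, rfl⟩
    have := h (IntermediateField.adjoin ℂ (Set.range x))
      (fun i => IntermediateField.subset_adjoin _ _ ⟨i, rfl⟩) i
    exact alg_aux _ _ this
  have h1 : (Set.range y).encard ≤ M.eRk (Set.range x) := by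
    rw [← ht.eRk_eq_encard, ← M.eRk_closure_eq (Set.range x)]
    exact M.eRk_mono hsub
  have h2 : M.eRk (Set.range x) ≤ (Set.range x).encard := M.eRk_le_encard _
  have h3 : (Set.range x).encard ≤ (Set.univ : Set ι).encard := by
    rw [← Set.image_univ]
    exact Set.encard_image_le _ _
  have h4 : (Set.range y).encard = (Set.univ : Set ι).encard := by
    rw [← Set.image_univ]
    exact hyi.encard_image _
  have h5 : (Set.range x).encard = (Set.univ : Set ι).encard := le_antisymm h3 (by
    rw [← h4]; exact h1.trans h2)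
  have h6 : M.eRk (Set.range x) = (Set.range x).encard := le_antisymm h2 (by
    rw [h5, ← h4]; exact h1)
  have h7 : M.Indep (Set.range x) := by
    rw [Matroid.indep_iff_eRk_eq_encard_of_finite (Set.finite_range x)]
    exact h6
  have h8 : Function.Injective x := by
    rw [← Set.injOn_univ]
    exact Set.Finite.injOn_of_encard_image_eq Set.finite_univ (by rw [Set.image_univ]; exact h5)
  rw [hM, AlgebraicIndependent.matroid_indep_iff] at h7
  exact AlgebraicIndependent.of_subtype_range h8 h7

theorem exists_s (n : ℕ) (A : List (Fin n → ℝ)) (hA : ∀ c ∈ A, c ≠ 0) :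
    ∃ s : ℝ, ∀ c ∈ A, ∑ i, c i * s ^ (i : ℕ) ≠ 0 := by
  classical
  set Q : (Fin n → ℝ) → Polynomial ℝ := fun c => ∑ i, Polynomial.C (c i) * Polynomial.X ^ (i : ℕ) with hQ
  have hQ0 : ∀ c, c ≠ 0 → Q c ≠ 0 := by
    intro c hc h0
    apply hc
    funext j
    have := congrArg (fun p => Polynomial.coeff p (j : ℕ)) h0
    simp only [hQ, Polynomial.finsetSum_coeff, Polynomial.coeff_C_mul, Polynomial.coeff_X_pow,
      Polynomial.coeff_zero] at this
    rw [Finset.sum_eq_single j] at this
    · simpa using this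
    · intro b _ hb
      rw [if_neg, mul_zero]
      intro h
      exact hb (Fin.ext h.symm)
    · intro h
      exact absurd (Finset.mem_univ _) h
  have hP : (A.map Q).prod ≠ 0 := by
    rw [Ne, List.prod_eq_zero_iff]
    intro h
    obtain ⟨c, hc, h0⟩ := List.mem_map.mp h
    exact hQ0 c (hA c hc) h0
  obtain ⟨s, hs⟩ := Polynomial.exists_eval_ne_zero_of_natDegree_lt_card _ hP (by
    exact Cardinal.natCast_lt_aleph0.trans_le (Cardinal.aleph0_le_mk ℝ))
  refine ⟨s, fun c hc h0 => hs ?_⟩
  rw [← Polynomial.coe_evalRingHom, map_list_prod, List.prod_eq_zero_iff, List.map_map]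
  rw [List.mem_map]
  refine ⟨c, hc, ?_⟩
  simp only [hQ, Function.comp, Polynomial.coe_evalRingHom, Polynomial.eval_finsetSum, Polynomial.eval_mul, Polynomial.eval_C,
    Polynomial.eval_pow, Polynomial.eval_X]
  exact h0

theorem w_ : S_w := by
  intro n hn A hA
  obtain ⟨m, rfl⟩ : ∃ m, n = m + 2 := ⟨n - 2, by omega⟩
  -- choice of s
  obtain ⟨s, hs⟩ : ∃ s : ℝ, ∀ c ∈ A, ∑ i, c i * s ^ (i : ℕ) ≠ 0 := exists_s _ A hA
  set a : Fin (m + 2) → ℝ := fun i => s ^ (i : ℕ) with ha
  set b : Fin (m + 2) → ℝ := fun i => if i = 0 then - s else if i = 1 then 1 else 0 with hb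
  have hab : a ⬝ᵥ b = 0 := by
    simp only [dotProduct, ha, hb]
    rw [Fin.sum_univ_succ, Fin.sum_univ_succ]
    rw [Finset.sum_eq_zero]
    · simp
    · intro i _
      have h1 : i.succ.succ ≠ 0 := Fin.succ_ne_zero _
      have h2 : i.succ.succ ≠ 1 := by
        intro h
        have := congrArg Fin.val h
        simp at this
      rw [if_neg h1, if_neg h2, mul_zero]
  have haa : 0 < a ⬝ᵥ a := by
    simp only [dotProduct, ha]
    rw [Fin.sum_univ_succ]
    have : 0 ≤ ∑ i : Fin (m + 1), s ^ (i.succ : ℕ) * s ^ (i.succ : ℕ) :=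
      Finset.sum_nonneg fun i _ => mul_self_nonneg _
    simp only [Fin.val_zero, pow_zero, mul_one]
    linarith
  have hbb : 0 < b ⬝ᵥ b := by
    simp only [dotProduct, hb]
    rw [Fin.sum_univ_succ, Fin.sum_univ_succ]
    have : 0 ≤ ∑ i : Fin m, (if (i.succ.succ : Fin (m + 2)) = 0 then - s else
      if (i.succ.succ : Fin (m + 2)) = 1 then 1 else 0) * (if (i.succ.succ : Fin (m + 2)) = 0 then - s
        else if (i.succ.succ : Fin (m + 2)) = 1 then 1 else 0) :=
      Finset.sum_nonneg fun i _ => mul_self_nonneg _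
    have h0 : 0 ≤ s * s := mul_self_nonneg s
    simp only [if_true, Fin.succ_zero_eq_one', one_ne_zero, if_false, Fin.succ_zero_eq_one] at *
    nlinarith
  set α : ℝ := (Real.sqrt (a ⬝ᵥ a))⁻¹ with hα
  set β : ℝ := (Real.sqrt (b ⬝ᵥ b))⁻¹ with hβ
  have hαp : 0 < α := inv_pos.mpr (Real.sqrt_pos.mpr haa)
  have hα2 : α * α * (a ⬝ᵥ a) = 1 := by
    have h := Real.mul_self_sqrt haa.le
    have h1 : Real.sqrt (a ⬝ᵥ a) ≠ 0 := (Real.sqrt_pos.mpr haa).ne'
    rw [hα]
    nth_rewrite 3 [← h]
    field_simp
  have hβ2 : β * β * (b ⬝ᵥ b) = 1 := by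
    have h := Real.mul_self_sqrt hbb.le
    have h1 : Real.sqrt (b ⬝ᵥ b) ≠ 0 := (Real.sqrt_pos.mpr hbb).ne'
    rw [hβ]
    nth_rewrite 3 [← h]
    field_simp
  -- sums in complex form
  have caa : (α : ℂ) * α * ∑ i, (a i : ℂ) * a i = 1 := by
    have := congrArg (fun r : ℝ => (r : ℂ)) hα2
    simpa [dotProduct] using this
  have cbb : (β : ℂ) * β * ∑ i, (b i : ℂ) * b i = 1 := by
    have := congrArg (fun r : ℝ => (r : ℂ)) hβ2
    simpa [dotProduct] using this
  have cab : ∑ i, (a i : ℂ) * b i = 0 := by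
    have := congrArg (fun r : ℝ => (r : ℂ)) hab
    simpa [dotProduct] using this
  have key : ∀ u v : ℂ, ∑ i, ((α : ℂ) * a i + u * (β * b i)) * (α * a i + v * (β * b i)) =
      1 + u * v := by
    intro u v
    have : ∀ i, ((α : ℂ) * a i + u * (β * b i)) * (α * a i + v * (β * b i)) =
        α * α * ((a i : ℂ) * a i) + (α * β * (u + v)) * ((a i : ℂ) * b i) +
          u * v * (β * β * ((b i : ℂ) * b i)) := by
      intro i; ring
    simp only [this, Finset.sum_add_distrib, ← Finset.mul_sum]
    rw [caa, cbb, cab]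
    ring
  refine ⟨fun i => (α : ℂ) * a i + Complex.I * (β * b i),
    fun i => (α : ℂ) * a i + (-Complex.I) * (β * b i), ?_, ?_, ?_, ?_⟩
  · rw [dotProduct, key, Complex.I_mul_I]
    ring
  · rw [dotProduct, key]
    rw [neg_mul_neg, Complex.I_mul_I]
    ring
  · rw [dotProduct, key]
    rw [mul_neg, Complex.I_mul_I]
    ring
  · intro c hc h0
    have h1 := congrArg Complex.re h0
    rw [dotProduct, Complex.re_sum] at h1
    have h2 : ∀ i, (((c i : ℝ) : ℂ) * ((α : ℂ) * a i + Complex.I * (β * b i))).re = α * (c i * s ^ (i : ℕ)) := by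
      intro i
      have e : ((c i : ℝ) : ℂ) * ((α : ℂ) * a i + Complex.I * (β * b i)) =
          ((α * (c i * a i) : ℝ) : ℂ) + ((c i * (β * b i) : ℝ) : ℂ) * Complex.I := by
        push_cast
        ring
      rw [e, Complex.add_re, Complex.ofReal_re, Complex.re_ofReal_mul, Complex.I_re, mul_zero,
        add_zero]
    simp only [h2, ← Finset.mul_sum, Complex.zero_re] at h1
    rcases mul_eq_zero.mp h1 with h | h
    · exact hαp.ne' h
    · exact hs c hc h

end Pool.Agent.W12.IV
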